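import Pool.Agent.Helper43.FV.Spec

/-!
# Module FINU: a finite index subgroup, modulo lattices, acts projectively
-/

namespace Pool.Agent.Helper43.FV

open Pool.Agent.Helper43.RS
open scoped ComplexConjugate TensorProduct

/-- algebra automorphisms as ring automorphisms -/
def FINU_i (K : Type) [Field K] [Algebra ℂ K] : (K ≃ₐ[ℂ] K) →* (K ≃+* K) where
  toFun a := a.toRingEquiv
  map_one' := rfl
  map_mul' _ _ := rfl

theorem FINU_i_inj (K : Type) [Field K] [Algebra ℂ K] : Function.Injective (FINU_i K) := by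
  intro a b h
  ext r
  exact congrArg (fun e : K ≃+* K => e r) h

theorem FINU_i_apply {K : Type} [Field K] [Algebra ℂ K] (a : K ≃ₐ[ℂ] K) (r : K) :
    FINU_i K a r = a r := rfl

/-- a subgroup of a lattice is finite modulo squares -/
theorem FINU_lat {G : Type} [Group G] (C : Subgroup G) {ι : Type} [Finite ι]
    (ψ : C →* Multiplicative (ι → ℤ)) :
    ∃ T : Finset G, ∀ c : C, ∃ t : C, (t : G) ∈ T ∧ ∃ d : C, ψ (t⁻¹ * c * (d * d)) = 1 := by
  classical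
  let L : Submodule ℤ (ι → ℤ) :=
    { carrier := {x | ∃ c : C, ψ c = Multiplicative.ofAdd x}
      zero_mem' := ⟨1, by rw [map_one]; rfl⟩
      add_mem' := by
        rintro a b ⟨c, hc⟩ ⟨d, hd⟩
        exact ⟨c * d, by rw [map_mul, hc, hd]; rfl⟩
      smul_mem' := by
        rintro n a ⟨c, hc⟩
        exact ⟨c ^ n, by rw [map_zpow, hc]; rfl⟩ }
  let N : Submodule ℤ L := LinearMap.range ((2 : ℤ) • (LinearMap.id : L →ₗ[ℤ] L))
  have : Module.Finite ℤ (L ⧸ N) := inferInstance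
  have hfin : Finite (L ⧸ N) := by
    refine Module.finite_of_fg_torsion _ ?_
    intro x
    refine ⟨⟨2, by simp⟩, ?_⟩
    obtain ⟨y, rfl⟩ := N.mkQ_surjective x
    change (2 : ℤ) • N.mkQ y = 0
    rw [← map_smul]
    rw [Submodule.mkQ_apply, Submodule.Quotient.mk_eq_zero]
    exact ⟨y, rfl⟩
  have := Fintype.ofFinite (L ⧸ N)
  have hL : ∀ x : L, ∃ c : C, ψ c = Multiplicative.ofAdd (x : ι → ℤ) := fun x => x.2
  choose f hf using hL
  refine ⟨Finset.univ.image fun q : L ⧸ N => ((f q.out : C) : G), fun c => ?_⟩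
  let x : L := ⟨Multiplicative.toAdd (ψ c), c, rfl⟩
  refine ⟨f (N.mkQ x).out, Finset.mem_image_of_mem _ (Finset.mem_univ _), ?_⟩
  have h1 : x - (N.mkQ x).out ∈ N := by
    rw [← Submodule.Quotient.mk_eq_zero, Submodule.Quotient.mk_sub, sub_eq_zero]
    exact (Quotient.out_eq' _).symm
  obtain ⟨y, hy⟩ := h1
  refine ⟨(f y)⁻¹, ?_⟩
  have hy2 : (2 : ℤ) • (y : ι → ℤ) = Multiplicative.toAdd (ψ c) -
      ((N.mkQ x).out : L) := congrArg Subtype.val hy
  simp only [map_mul, map_inv, hf]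
  apply Multiplicative.toAdd.injective
  simp only [toAdd_mul, toAdd_inv, toAdd_ofAdd, toAdd_one]
  rw [two_smul] at hy2
  have : Multiplicative.toAdd (ψ c) = (y : ι → ℤ) + y + ((N.mkQ x).out : L) := by
    rw [hy2]; abel
  rw [this]; abel

theorem FINU_sq {ι : Type} (x : Multiplicative (ι → ℤ)) (h : x * x = 1) : x = 1 := by
  have h1 : Multiplicative.toAdd x + Multiplicative.toAdd x = 0 := h
  apply Multiplicative.toAdd.injective
  funext i
  have h2 := congrFun h1 i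
  simp only [Pi.add_apply, Pi.zero_apply] at h2
  change Multiplicative.toAdd x i = 0
  omega

/-- abstract form: the subgroups needed for EXT -/
theorem FINU_grp {E : Type} [Group E] (A A' A2 : Subgroup E) (hA' : A' ≤ A) (h2 : A2 ≤ A')
    {ι : Type} [Finite ι] (φ : A' →* Multiplicative (ι → ℤ))
    (hφ : ∀ a : A', φ a = 1 ↔ (a : E) ∈ A2) (S : Set E) (hS1 : ∀ s ∈ S, s * s = 1)
    (hlast : ∀ s ∈ S, ∃ T : Finset E, ∀ a ∈ A2, s * a * s⁻¹ ∈ A2 → a * s * (a * s) = 1 →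
      ∃ b ∈ T, b ∈ S ∧ ∃ x ∈ A2, s * x * s⁻¹ ∈ A2 ∧ a * s = x * b * x⁻¹) :
    ∀ s ∈ S, ∃ C N : Subgroup E, N ≤ C ∧ C ≤ A ∧
      (∀ a ∈ A', s * a * s⁻¹ ∈ A' → a ∈ C) ∧
      (∀ c ∈ C, s * c * s⁻¹ ∈ C) ∧ (∀ a ∈ N, s * a * s⁻¹ ∈ N) ∧
      (∀ c ∈ C, ∀ a ∈ N, c * a * c⁻¹ ∈ N) ∧
      (∀ c ∈ C, ∀ c' ∈ C, c * c' * c⁻¹ * c'⁻¹ ∈ N) ∧
      (∃ T : Finset E, ∀ c ∈ C, ∃ t ∈ T, ∃ d ∈ C, t⁻¹ * c * (d * d) ∈ N) ∧
      (∃ T : Finset E, ∀ c ∈ C, c * c ∈ N → ∃ t ∈ T, t⁻¹ * c ∈ N) ∧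
      (∀ s' ∈ S, s' * s⁻¹ ∈ C → ∃ T : Finset E, ∀ a ∈ N, a * s' * (a * s') = 1 →
        ∃ b ∈ T, b ∈ S ∧ ∃ x ∈ N, a * s' = x * b * x⁻¹) := by
  classical
  intro s hs
  have hs2 := hS1 s hs
  have hsinv : s⁻¹ = s := inv_eq_of_mul_eq_one_right hs2
  have hcc : ∀ a : E, s * (s * a * s⁻¹) * s⁻¹ = a := by
    intro a
    rw [hsinv]
    calc s * (s * a * s) * s = (s * s) * a * (s * s) := by group
      _ = a := by rw [hs2]; group
  -- A2 is normalized by A'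
  have hnorm : ∀ c ∈ A', ∀ a ∈ A2, c * a * c⁻¹ ∈ A2 := by
    intro c hc a ha
    have h := hφ (⟨c, hc⟩ * ⟨a, h2 ha⟩ * ⟨c, hc⟩⁻¹)
    refine h.mp ?_
    rw [map_mul, map_mul, (hφ ⟨a, h2 ha⟩).mpr ha, map_inv, mul_one, mul_inv_cancel]
  have hcomm : ∀ c ∈ A', ∀ c' ∈ A', c * c' * c⁻¹ * c'⁻¹ ∈ A2 := by
    intro c hc c' hc'
    have h := hφ (⟨c, hc⟩ * ⟨c', hc'⟩ * ⟨c, hc⟩⁻¹ * ⟨c', hc'⟩⁻¹)
    refine h.mp ?_
    rw [map_mul, map_mul, map_mul, map_inv, map_inv, mul_comm (φ ⟨c, hc⟩)]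
    rw [mul_inv_cancel_right, mul_inv_cancel]
  have hsq : ∀ c ∈ A', c * c ∈ A2 → c ∈ A2 := by
    intro c hc h
    refine (hφ ⟨c, hc⟩).mp (FINU_sq _ ?_)
    rw [← map_mul]
    exact (hφ _).mpr h
  have hconjmul : ∀ x y : E, s * (x * y) * s⁻¹ = (s * x * s⁻¹) * (s * y * s⁻¹) := by
    intro x y; group
  have hconjinv : ∀ x : E, s * x⁻¹ * s⁻¹ = (s * x * s⁻¹)⁻¹ := by
    intro x; group
  set C : Subgroup E := A' ⊓ A'.comap (MulAut.conj s).toMonoidHom with hC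
  set N : Subgroup E := A2 ⊓ A2.comap (MulAut.conj s).toMonoidHom with hN
  have memC : ∀ x, x ∈ C ↔ x ∈ A' ∧ s * x * s⁻¹ ∈ A' := fun x => Iff.rfl
  have memN : ∀ x, x ∈ N ↔ x ∈ A2 ∧ s * x * s⁻¹ ∈ A2 := fun x => Iff.rfl
  refine ⟨C, N, ?_, ?_, ?_, ?_, ?_, ?_, ?_, ?_, ?_, ?_⟩
  · intro x hx
    rw [memN] at hx
    exact (memC x).mpr ⟨h2 hx.1, h2 hx.2⟩
  · intro x hx
    exact hA' ((memC x).mp hx).1
  · intro a ha h
    exact (memC a).mpr ⟨ha, h⟩
  · intro c hc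
    rw [memC] at hc ⊢
    exact ⟨hc.2, by rw [hcc]; exact hc.1⟩
  · intro c hc
    rw [memN] at hc ⊢
    exact ⟨hc.2, by rw [hcc]; exact hc.1⟩
  · intro c hc a ha
    rw [memC] at hc
    rw [memN] at ha ⊢
    refine ⟨hnorm c hc.1 a ha.1, ?_⟩
    rw [hconjmul, hconjmul, hconjinv]
    exact hnorm _ hc.2 _ ha.2
  · intro c hc c' hc'
    rw [memC] at hc hc'
    rw [memN]
    refine ⟨hcomm c hc.1 c' hc'.1, ?_⟩
    rw [hconjmul, hconjmul, hconjmul, hconjinv, hconjinv]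
    exact hcomm _ hc.2 _ hc'.2
  · -- the lattice
    let ψ1 : C →* Multiplicative (ι → ℤ) := φ.comp (Subgroup.inclusion inf_le_left)
    let κ : C →* A' := ((MulAut.conj s).toMonoidHom.comp C.subtype).codRestrict A'
      (fun x => ((memC _).mp x.2).2)
    let ψ2 : C →* Multiplicative (ι → ℤ) := φ.comp κ
    let ψ : C →* Multiplicative (ι ⊕ ι → ℤ) :=
      { toFun := fun c => Multiplicative.ofAdd
          (Sum.elim (Multiplicative.toAdd (ψ1 c)) (Multiplicative.toAdd (ψ2 c)))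
        map_one' := by
          rw [map_one ψ1, map_one ψ2]
          apply Multiplicative.toAdd.injective
          funext i
          rcases i with i | i <;> rfl
        map_mul' := fun a b => by
          rw [map_mul ψ1, map_mul ψ2]
          apply Multiplicative.toAdd.injective
          funext i
          rcases i with i | i <;> rfl }
    obtain ⟨T, hT⟩ := FINU_lat C ψ
    refine ⟨T, fun c hc => ?_⟩
    obtain ⟨t, htT, d, hd⟩ := hT ⟨c, hc⟩
    refine ⟨t, htT, d, d.2, ?_⟩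
    have h3 : ψ1 (t⁻¹ * ⟨c, hc⟩ * (d * d)) = 1 ∧ ψ2 (t⁻¹ * ⟨c, hc⟩ * (d * d)) = 1 := by
      constructor
      · apply Multiplicative.toAdd.injective
        funext i
        exact congrFun (congrArg Multiplicative.toAdd hd) (Sum.inl i)
      · apply Multiplicative.toAdd.injective
        funext i
        exact congrFun (congrArg Multiplicative.toAdd hd) (Sum.inr i)
    rw [memN]
    exact ⟨(hφ _).mp h3.1, (hφ _).mp h3.2⟩
  · refine ⟨{1}, fun c hc hcN => ⟨1, by simp, ?_⟩⟩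
    rw [inv_one, one_mul, memN]
    rw [memC] at hc
    rw [memN, hconjmul] at hcN
    exact ⟨hsq c hc.1 hcN.1, hsq _ hc.2 hcN.2⟩
  · intro s' hs' hss
    have hs'2 := hS1 s' hs'
    obtain ⟨T, hT⟩ := hlast s' hs'
    refine ⟨T, fun a ha h1 => ?_⟩
    rw [memN] at ha
    rw [memC] at hss
    have hgo : ∀ x : E, s' * x * s'⁻¹ = (s' * s⁻¹) * (s * x * s⁻¹) * (s' * s⁻¹)⁻¹ := by
      intro x; group
    obtain ⟨b, hb, hbS, x, hx, hx2, he⟩ := hT a ha.1
      (by rw [hgo]; exact hnorm _ hss.1 _ ha.2) h1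
    refine ⟨b, hb, hbS, x, ?_, he⟩
    rw [memN]
    refine ⟨hx, ?_⟩
    have : s * x * s⁻¹ = (s' * s⁻¹)⁻¹ * (s' * x * s'⁻¹) * ((s' * s⁻¹)⁻¹)⁻¹ := by group
    rw [this]
    exact hnorm _ (A'.inv_mem hss.1) _ hx2

theorem st_FINU (hP : ST_PROJ) (hE : ST_EXT) : ST_FINU := by
  classical
  intro K _ _ X A S hX hR A' hA' hidx N φ n v hv hrat Z hZ hker hmem
  have hinj := FINU_i_inj K
  have hμ2 : ∀ μ ∈ S, μ * μ = 1 := by
    intro μ hμ
    ext r
    exact hR.invol μ hμ r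
  have hμinv : ∀ μ ∈ S, μ⁻¹ = μ := fun μ hμ => inv_eq_of_mul_eq_one_right (hμ2 μ hμ)
  let AE := A.map (FINU_i K)
  let AE' := A'.map (FINU_i K)
  let A2 : Subgroup (K ≃+* K) := φ.ker.map ((FINU_i K).comp A'.subtype)
  let e := A'.equivMapOfInjective (FINU_i K) hinj
  let φE : AE' →* Multiplicative (Fin N → ℤ) := φ.comp e.symm.toMonoidHom
  have hφE : ∀ (a : K ≃ₐ[ℂ] K) (ha : a ∈ A'),
      φE ⟨FINU_i K a, Subgroup.mem_map_of_mem _ ha⟩ = φ ⟨a, ha⟩ := by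
    intro a ha
    change φ (e.symm _) = _
    congr 1
    rw [MulEquiv.symm_apply_eq]
    rfl
  have h2 : A2 ≤ AE' := by
    rintro x ⟨a, ha, rfl⟩
    exact Subgroup.mem_map_of_mem _ a.2
  have hφ2 : ∀ a : AE', φE a = 1 ↔ (a : K ≃+* K) ∈ A2 := by
    rintro ⟨x, a, ha, rfl⟩
    rw [hφE a ha]
    constructor
    · intro h
      exact ⟨⟨a, ha⟩, h, rfl⟩
    · rintro ⟨b, hb, hab⟩
      have : b = ⟨a, ha⟩ := Subtype.ext (hinj hab)
      rw [← this]
      exact hb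
  have hA2 : ∀ a ∈ A, (∃ M ∈ Z, LinRel v a M) → FINU_i K a ∈ A2 := by
    intro a ha h
    have ha' := hmem a ha h
    exact ⟨⟨a, ha'⟩, (hker ⟨a, ha'⟩).mpr h, rfl⟩
  have hA2' : ∀ x ∈ A2, ∃ a ∈ A, x = FINU_i K a ∧ ∃ M ∈ Z, LinRel v a M := by
    rintro x ⟨a, ha, rfl⟩
    exact ⟨a, hA' a.2, rfl, (hker a).mp ha⟩
  obtain ⟨T, hT1, hT2⟩ := hE (K ≃+* K) AE AE' S (Subgroup.map_mono hA')
    (by rwa [Subgroup.relIndex_map_map_of_injective _ _ hinj]) hμ2
    (by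
      rintro μ hμ x ⟨a, ha, rfl⟩ h
      obtain ⟨ν, hν, h3⟩ := hR.closed μ hμ a ha (fun r => congrArg (fun e : K ≃+* K => e r) h)
      have : FINU_i K a * μ = ν := by
        ext r; exact (h3 r).symm
      rw [this]; exact hν)
    (by
      intro μ hμ ν hν
      obtain ⟨a, ha, h⟩ := hR.diff μ hμ ν hν
      have : μ * ν⁻¹ = FINU_i K a := by
        rw [mul_inv_eq_iff_eq_mul]
        ext r; exact h r
      rw [this]
      exact Subgroup.mem_map_of_mem _ ha)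
    (by
      rintro μ hμ x ⟨a, ha, rfl⟩
      obtain ⟨a', ha', h⟩ := hR.norm μ hμ a ha
      have : μ * FINU_i K a * μ⁻¹ = FINU_i K a' := by
        rw [hμinv μ hμ]
        ext r; exact (h r).symm
      rw [this]
      exact Subgroup.mem_map_of_mem _ ha')
    (FINU_grp AE AE' A2 (Subgroup.map_mono hA') h2 φE hφ2 S hμ2 (by
      intro μ hμ
      obtain ⟨T, hT, hT'⟩ := hP K X A S hX hR n v hv hrat Z hZ μ hμ
      refine ⟨T.image fun b => FINU_i K b * μ, ?_⟩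
      intro x hx hx2 h
      obtain ⟨a, ha, rfl, hM⟩ := hA2' x hx
      obtain ⟨a1, ha1, h4, hM1⟩ := hA2' _ hx2
      have h5 : (a1 : K → K) = fun r => μ (a (μ r)) := by
        funext r
        have := congrArg (fun e : K ≃+* K => e r) h4
        rw [hμinv μ hμ] at this
        exact this.symm
      rw [h5] at hM1
      obtain ⟨b, hb, y, hy, hMy, hMy2, h6⟩ := hT' a ha hM hM1
        (fun r => congrArg (fun e : K ≃+* K => e r) h)
      have h7 : FINU_i K a * μ = FINU_i K y * (FINU_i K b * μ) * (FINU_i K y)⁻¹ := by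
        ext r
        exact h6 r
      have h8 : (FINU_i K b * μ) * (FINU_i K b * μ) = 1 := by
        have e1 : FINU_i K b * μ = (FINU_i K y)⁻¹ * (FINU_i K a * μ) * FINU_i K y := by
          rw [h7]; group
        rw [e1]
        calc (FINU_i K y)⁻¹ * (FINU_i K a * μ) * FINU_i K y *
              ((FINU_i K y)⁻¹ * (FINU_i K a * μ) * FINU_i K y) =
            (FINU_i K y)⁻¹ * ((FINU_i K a * μ) * (FINU_i K a * μ)) * FINU_i K y := by group
          _ = 1 := by rw [h]; group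
      refine ⟨FINU_i K b * μ, Finset.mem_image_of_mem _ hb, ?_, FINU_i K y, hA2 y hy hMy, ?_, h7⟩
      · obtain ⟨ν, hν, h9⟩ := hR.closed μ hμ b (hT b hb)
          (fun r => congrArg (fun e : K ≃+* K => e r) h8)
        have : FINU_i K b * μ = ν := by
          ext r; exact (h9 r).symm
        rw [this]; exact hν
      · obtain ⟨y', hy', h10⟩ := hR.norm μ hμ y hy
        have h11 : μ * FINU_i K y * μ⁻¹ = FINU_i K y' := by
          rw [hμinv μ hμ]
          ext r; exact (h10 r).symm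
        rw [h11]
        refine hA2 y' hy' ?_
        have h12 : (y' : K → K) = fun r => μ (y (μ r)) := funext h10
        rw [h12]
        exact hMy2))
  refine ⟨T, hT1, fun μ hμ => ?_⟩
  obtain ⟨b, hb, x, ⟨a, ha, rfl⟩, h⟩ := hT2 μ hμ
  refine ⟨b, hb, a, ha, fun r => ?_⟩
  exact congrArg (fun e : K ≃+* K => e r) h

end Pool.Agent.Helper43.FV
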